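import Pool.Agent.Helper17.CR.Stmts

/-!
Module CORE of the CR project (`MP_c38931_co`).
-/

set_option autoImplicit false

namespace Pool.Agent.Helper48.CR

open Finset Pool.Agent.Helper17.CR

universe u

theorem st_CORE (h1 : ST_FIB.{u}) (h2 : ST_CORE0.{u}) : ST_CORE.{u} := by
  intro X _ _ _ q e g hq hq2 hge hg1 hfree A n k mu c hn hqn hinv hrow hcol hpow
  classical
  obtain ⟨e', -, he'⟩ := (Nat.dvd_prime_pow hq).1 (orderOf_dvd_of_pow_eq_one hge)
  have hm0 : orderOf g ≠ 0 := by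
    rw [he']
    exact pow_ne_zero _ hq.ne_zero
  haveI : NeZero (orderOf g) := ⟨hm0⟩
  have hm1 : 1 < orderOf g := by
    have h3 : orderOf g ≠ 1 := fun h => hg1 (orderOf_eq_one_iff.1 h)
    omega
  obtain ⟨T, hT, hT', f, hf⟩ := h1 X g (orderOf g) (pow_orderOf_eq_one g) (fun i x hx =>
    orderOf_dvd_of_pow_eq_one (hfree i x hx))
  haveI := hT
  haveI := hT'
  haveI : Nonempty T := ⟨(f (Classical.arbitrary X)).1⟩
  have hfs : ∀ x : T × ZMod (orderOf g), f.symm (x.1, x.2 + 1) = g (f.symm x) := by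
    intro x
    rw [Equiv.symm_apply_eq, hf, Equiv.apply_symm_apply]
  obtain ⟨α, ha, hb, hc⟩ := h2 T q e' (orderOf g) hq hq2 he' hm1
    (Matrix.reindexAlgEquiv ℤ ℤ f A) n k mu c hn hqn
    (by
      intro x y
      change A (f.symm (x.1, x.2 + 1)) (f.symm (y.1, y.2 + 1)) = A (f.symm x) (f.symm y)
      rw [hfs, hfs, hinv])
    (by
      intro x
      change ∑ y, A (f.symm x) (f.symm y) = k
      rw [Equiv.sum_comp f.symm (fun y => A (f.symm x) y), hrow])
    (by
      intro y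
      change ∑ x, A (f.symm x) (f.symm y) = k
      rw [Equiv.sum_comp f.symm (fun x => A x (f.symm y)), hcol])
    (by
      rw [← map_pow, hpow, map_add, map_smul, map_smul, map_one]
      rfl)
  refine ⟨α, ha, hb, ?_⟩
  rw [← hc]
  change _ = ∑ x : T × ZMod (orderOf g), A (f.symm x) (f.symm (x.1, x.2 + 1))
  rw [← Equiv.sum_comp f.symm (fun x => A x (g x))]
  refine Finset.sum_congr rfl fun x _ => ?_
  rw [hfs]

end Pool.Agent.Helper48.CR
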