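import Pool.Agent.Helper17.CR.Stmts

/-!
Module RANK of the CR project (`MP_c38931_co`).
-/

set_option autoImplicit false

namespace Pool.Agent.Helper48.CR

open Finset Pool.Agent.Helper17.CR

universe u

theorem rank_JJ (T : Type u) [Fintype T] (R : Type) [CommRing R] :
    JJ T R * JJ T R = (Fintype.card T : R) • JJ T R := by
  ext i j
  simp [JJ, Matrix.mul_apply]

theorem rank_mulJ (T : Type u) [Fintype T] (R : Type) [CommRing R] (B : Matrix T T R) (k : R)
    (h : ∀ i, ∑ j, B i j = k) : B * JJ T R = k • JJ T R := by
  ext i j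
  simp [JJ, Matrix.mul_apply, h]

theorem rank_Jmul (T : Type u) [Fintype T] (R : Type) [CommRing R] (B : Matrix T T R) (k : R)
    (h : ∀ j, ∑ i, B i j = k) : JJ T R * B = k • JJ T R := by
  ext i j
  simp [JJ, Matrix.mul_apply, h]

theorem rank_det (T : Type u) [Fintype T] [DecidableEq T] [Nonempty T] (R : Type) [CommRing R]
    (t c : R) : (t • (1 : Matrix T T R) + c • JJ T R).det =
      t ^ (Fintype.card T - 1) * (t + (Fintype.card T : R) * c) := by
  have h1 := Matrix.eval_charpoly (-(Matrix.vecMulVec (fun _ : T => c) (fun _ : T => (1 : R)))) t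
  have h2 : Matrix.scalar T t - (-(Matrix.vecMulVec (fun _ : T => c) (fun _ : T => (1 : R)))) =
      t • (1 : Matrix T T R) + c • JJ T R := by
    ext i j
    simp [JJ, Matrix.vecMulVec_apply, Matrix.scalar_apply, Matrix.one_apply, Matrix.diagonal_apply]
  rw [h2] at h1
  rw [← h1]
  have h3 : -(Matrix.vecMulVec (fun _ : T => c) (fun _ : T => (1 : R))) =
      Matrix.vecMulVec (fun _ : T => -c) (fun _ : T => (1 : R)) := by
    ext i j
    simp [Matrix.vecMulVec_apply]
  rw [h3, Matrix.charpoly_vecMulVec]
  have hc : 0 < Fintype.card T := Fintype.card_pos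
  have h4 : t ^ Fintype.card T = t ^ (Fintype.card T - 1) * t := by
    rw [← pow_succ]
    congr 1
    omega
  simp [dotProduct]
  rw [h4]
  ring

theorem st_RANK : ST_RANK.{u} := by
  intro T _ _ _ B L k β a mu hL hrow hcol hpow hβ
  classical
  have hN : (Fintype.card T : ℂ) ≠ 0 := by
    exact_mod_cast (Fintype.card_pos (α := T)).ne'
  set N : ℂ := (Fintype.card T : ℂ) with hNdef
  set c : ℂ := (k - β) / N with hc
  have hcN : c * N = k - β := by
    rw [hc]; field_simp
  have hBJ := rank_mulJ T ℂ B k hrow
  have hJB := rank_Jmul T ℂ B k hcol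
  have hJJ := rank_JJ T ℂ
  have hpowJ : ∀ j : ℕ, B ^ j * JJ T ℂ = (k ^ j) • JJ T ℂ := by
    intro j
    induction j with
    | zero => simp
    | succ j ih =>
      rw [pow_succ, Matrix.mul_assoc, hBJ, Matrix.mul_smul, ih, smul_smul, pow_succ, mul_comm]
  have hk : k ^ L = a + mu * N := by
    have h1 := hpowJ L
    rw [hpow, Matrix.add_mul, Matrix.smul_mul, Matrix.smul_mul, Matrix.one_mul, hJJ] at h1
    have h2 := congrFun (congrFun h1 (Classical.arbitrary T)) (Classical.arbitrary T)
    simp [JJ] at h2
    rw [← h2]
  have hB' : ∀ j : ℕ, (B - c • JJ T ℂ) ^ j = B ^ j - ((k ^ j - β ^ j) / N) • JJ T ℂ := by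
    intro j
    induction j with
    | zero => simp
    | succ j ih =>
      rw [pow_succ, ih, Matrix.sub_mul, Matrix.mul_sub, Matrix.mul_sub, ← pow_succ,
        Matrix.mul_smul, hpowJ, Matrix.smul_mul, hJB, Matrix.smul_mul, Matrix.mul_smul, hJJ]
      simp only [smul_smul]
      rw [sub_sub, ← sub_smul, ← add_smul]
      congr 2
      rw [← hNdef]
      field_simp
      rw [pow_succ, pow_succ]
      linear_combination (β ^ j) * hcN
  refine ⟨B - c • JJ T ℂ, ?_, ?_, ?_⟩
  · -- characteristic polynomials
    have h1 : (Polynomial.X - Polynomial.C k) ^ (Fintype.card T - 1) *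
        (B.charpoly * (Polynomial.X - Polynomial.C β)) =
        (Polynomial.X - Polynomial.C k) ^ (Fintype.card T - 1) *
        ((Polynomial.X - Polynomial.C k) * (B - c • JJ T ℂ).charpoly) := by
      have hd := rank_det T (Polynomial ℂ) (Polynomial.X - Polynomial.C k) (Polynomial.C c)
      have hm : B.charmatrix * ((Polynomial.X - Polynomial.C k) • (1 : Matrix T T (Polynomial ℂ)) +
          Polynomial.C c • JJ T (Polynomial ℂ)) =
          (Polynomial.X - Polynomial.C k) • (B - c • JJ T ℂ).charmatrix := by
        have e1 : B.charmatrix * JJ T (Polynomial ℂ) =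
            (Polynomial.X - Polynomial.C k) • JJ T (Polynomial ℂ) := by
          apply rank_mulJ
          intro i
          simp only [Matrix.charmatrix_apply, Finset.sum_sub_distrib]
          rw [← map_sum, hrow]
          simp [Matrix.diagonal_apply]
        rw [Matrix.mul_add, Matrix.mul_smul, Matrix.mul_smul, Matrix.mul_one, e1]
        refine Matrix.ext fun i j => ?_
        simp [Matrix.charmatrix_apply, JJ]
        ring
      have hdet := congrArg Matrix.det hm
      rw [Matrix.det_mul, hd, Matrix.det_smul] at hdet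
      have hX : Polynomial.X - Polynomial.C k + ((Fintype.card T : ℕ) : Polynomial ℂ) *
          Polynomial.C c = Polynomial.X - Polynomial.C β := by
        have : ((Fintype.card T : ℕ) : Polynomial ℂ) * Polynomial.C c =
            Polynomial.C (k - β) := by
          rw [← hcN, ← Polynomial.C_eq_natCast, ← Polynomial.C_mul, mul_comm c N, hNdef]
        rw [this, Polynomial.C_sub]
        ring
      rw [hX] at hdet
      have h4 : Fintype.card T = Fintype.card T - 1 + 1 := by
        have := Fintype.card_pos (α := T)
        omega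
      have h5 : (Polynomial.X - Polynomial.C k) ^ Fintype.card T =
          (Polynomial.X - Polynomial.C k) ^ (Fintype.card T - 1) *
            (Polynomial.X - Polynomial.C k) := by
        rw [← pow_succ, ← h4]
      rw [h5] at hdet
      rw [Matrix.charpoly, Matrix.charpoly]
      linear_combination hdet
    exact mul_left_cancel₀ (pow_ne_zero _ (Polynomial.X_sub_C_ne_zero k)) h1
  · rw [hB', hpow, hk, hβ, add_sub_cancel_left, mul_div_assoc, div_self hN, mul_one,
      add_sub_cancel_right]
  · rw [Matrix.trace_sub, Matrix.trace_smul]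
    have : (JJ T ℂ).trace = N := by
      simp [Matrix.trace, JJ, hNdef]
    rw [this, smul_eq_mul, hcN]
    ring

end Pool.Agent.Helper48.CR
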